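import Mathlib.Combinatorics.SimpleGraph.Metric
import Mathlib.GroupTheory.Perm.Sign
import Mathlib.GroupTheory.Perm.Cycle.Basic
import Mathlib.Logic.Equiv.Fin.Rotate
import Mathlib.Data.Fin.VecNotation
import Mathlib.Tactic

/-!
# MP_fb91b8: cyclic sorting time; the explicit permutation `π₀` is not extremal for `n = 18`
-/

namespace Pool.Agent.Results.MP_fb91b8_co.Disproof

open Equiv Finset

/-! ### Definitions -/

/-- The `n`-cycles in the symmetric group of `Fin n`: the permutations with a single orbit. -/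
abbrev NCycle (n : ℕ) : Type := {g : Perm (Fin n) // ∀ x y, g.SameCycle x y}

/-- The rotation `i ↦ i + 1` has a single orbit. -/
theorem rotate_sameCycle (n : ℕ) (x y : Fin n) : (finRotate n).SameCycle x y := by
  cases n with
  | zero => exact x.elim0
  | succ n =>
    have h : ∀ z : Fin (n + 1), (finRotate (n + 1)).SameCycle 0 z := by
      intro z
      induction z using Fin.induction with
      | zero => exact Perm.SameCycle.refl _ _
      | succ i ih =>
        have : finRotate (n + 1) i.castSucc = i.succ := by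
          rw [finRotate_apply, Fin.coeSucc_eq_succ]
        rw [← this]
        exact Perm.sameCycle_apply_right.mpr ih
    exact (h x).symm.trans (h y)

/-- The standard cycle `c_n = (1, 2, …, n)`. -/
def cn (n : ℕ) : NCycle n := ⟨finRotate n, rotate_sameCycle n⟩

/-- The adjacent transposition exchanging `i` and `i + 1`. -/
def adjSwap (n i : ℕ) (hi : i + 1 < n) : Perm (Fin n) :=
  swap ⟨i, Nat.lt_of_succ_lt hi⟩ ⟨i + 1, hi⟩

theorem adjSwap_mul_self (n i : ℕ) (hi : i + 1 < n) : adjSwap n i hi * adjSwap n i hi = 1 :=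
  swap_mul_self _ _

theorem adjSwap_inv (n i : ℕ) (hi : i + 1 < n) : (adjSwap n i hi)⁻¹ = adjSwap n i hi :=
  swap_inv _ _

/-- The graph `Γ_n` on the `n`-cycles: `γ ≠ γ'` are adjacent iff `γ' = s_i γ s_i` for an
adjacent transposition `s_i`. -/
def Gam (n : ℕ) : SimpleGraph (NCycle n) where
  Adj g g' := g ≠ g' ∧ ∃ (i : ℕ) (hi : i + 1 < n),
    g'.1 = adjSwap n i hi * g.1 * adjSwap n i hi
  symm := ⟨by
    rintro g g' ⟨hne, i, hi, h⟩
    refine ⟨hne.symm, i, hi, ?_⟩
    have h1 := adjSwap_mul_self n i hi
    rw [h]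
    calc g.1 = 1 * g.1 * 1 := by simp
      _ = (adjSwap n i hi * adjSwap n i hi) * g.1 * (adjSwap n i hi * adjSwap n i hi) := by rw [h1]
      _ = _ := by simp only [mul_assoc]⟩
  loopless := ⟨fun g h => h.1 rfl⟩

/-- `Sort_n`: the largest distance of an `n`-cycle from `c_n` in `Γ_n`. -/
noncomputable def sortTime (n : ℕ) : ℕ :=
  letI : Fintype (NCycle n) := Fintype.ofFinite _
  (Finset.univ : Finset (NCycle n)).sup fun g => (Gam n).dist (cn n) g

/-- The number of inversions of a word. -/
def invList (l : List ℕ) : ℕ :=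
  ((Finset.range l.length ×ˢ Finset.range l.length).filter
    fun p => p.1 < p.2 ∧ l.getD p.2 0 < l.getD p.1 0).card

/-- A word on `1, …, n` is admissible if its prefix sums satisfy
`∑_{j ≤ k} π(j) ≤ k (n + 1) / 2` for `1 ≤ k ≤ n`. -/
def Admissible (n : ℕ) (l : List ℕ) : Prop :=
  ∀ k ∈ Finset.Icc 1 n, 2 * (l.take k).sum ≤ k * (n + 1)

instance (n : ℕ) (l : List ℕ) : Decidable (Admissible n l) := by
  unfold Admissible
  infer_instance

/-- The arrangement given by `k_1, …, k_m`: the small values `n - m, …, 1` in decreasing order,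
with the large value `n - t` (for `t = 0, …, m - 1`) placed after the first `k_{t+1}` small values;
large values with the same `k` are in decreasing order, and values whose `k` is not listed come
after all the small values. -/
def build (n m : ℕ) (ks : List ℕ) : List ℕ :=
  (List.range (n - m + 1)).flatMap fun j =>
    ((List.range m).filter fun t => ks.getD t (n - m) = j).map (fun t => n - t) ++
      (if j < n - m then [n - m - j] else [])

/-- One step of the algorithm: append the least `k` with `k_{t-1} ≤ k ≤ n - m` for which the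
arrangement is admissible. -/
def stepK (n m : ℕ) (ks : List ℕ) : List ℕ :=
  ks ++ [((List.range (n - m + 1)).find?
    fun k => decide (ks.getLastD 0 ≤ k) && decide (Admissible n (build n m (ks ++ [k])))).getD (n - m)]

/-- The permutation `π₀` in one-line notation. -/
def pi0 (n : ℕ) : List ℕ := build n (n / 2) ((stepK n (n / 2))^[n / 2] [])

/-- The example of the problem file. -/
theorem pi0_twelve : pi0 12 = [6, 5, 4, 3, 12, 2, 11, 1, 10, 9, 8, 7] := by decide +kernel

/-! ### Inversions of permutations -/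

/-- The inversions of a permutation of `Fin n`. -/
def invSet {n : ℕ} (u : Perm (Fin n)) : Finset (Fin n × Fin n) :=
  Finset.univ.filter fun p => p.1 < p.2 ∧ u p.2 < u p.1

theorem inv_swap_mul {n : ℕ} (u : Perm (Fin n)) (i : ℕ) (hi : i + 1 < n) :
    (invSet (adjSwap n i hi * u)).card ≤ (invSet u).card + 1 := by
  unfold adjSwap
  set a : Fin n := ⟨i, Nat.lt_of_succ_lt hi⟩ with ha
  set b : Fin n := ⟨i + 1, hi⟩ with hb
  have hsub : invSet (swap a b * u) ⊆ insert (u.symm a, u.symm b) (invSet u) := by
    rintro ⟨x, y⟩ hxy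
    unfold invSet at hxy ⊢
    rw [Finset.mem_filter] at hxy
    rw [Finset.mem_insert, Finset.mem_filter]
    simp only [Finset.mem_univ, true_and, Perm.mul_apply, Prod.mk.injEq] at hxy ⊢
    obtain ⟨h1, h2⟩ := hxy
    by_cases h : u x = a ∧ u y = b
    · left
      rw [← h.1, ← h.2]
      simp
    · right
      refine ⟨h1, ?_⟩
      have hne : u x ≠ u y := fun h3 => h1.ne (u.injective h3)
      rw [swap_apply_def, swap_apply_def] at h2
      rw [Fin.lt_def] at h2 ⊢
      have hab : (a : ℕ) = i ∧ (b : ℕ) = i + 1 := ⟨rfl, rfl⟩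
      have e1 : u x = a ↔ (u x : ℕ) = i := by rw [Fin.ext_iff, hab.1]
      have e2 : u x = b ↔ (u x : ℕ) = i + 1 := by rw [Fin.ext_iff, hab.2]
      have e3 : u y = a ↔ (u y : ℕ) = i := by rw [Fin.ext_iff, hab.1]
      have e4 : u y = b ↔ (u y : ℕ) = i + 1 := by rw [Fin.ext_iff, hab.2]
      have e5 : (u x : ℕ) ≠ u y := fun h3 => hne (Fin.ext h3)
      simp only [e1, e2, e3, e4] at h h2
      split_ifs at h2 <;> (try simp only [hab.1, hab.2] at h2) <;> omega
  exact (Finset.card_le_card hsub).trans (Finset.card_insert_le _ _)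

/-- Along a walk of length `L` the number of inversions of a conjugating permutation grows by at
most `L`. -/
theorem walk_inv {n : ℕ} {x y : NCycle n} (p : (Gam n).Walk x y) :
    ∀ u : Perm (Fin n), x.1 = u * finRotate n * u⁻¹ →
      ∃ v : Perm (Fin n), y.1 = v * finRotate n * v⁻¹ ∧
        (invSet v).card ≤ (invSet u).card + p.length := by
  induction p with
  | nil => exact fun u hu => ⟨u, hu, by simp⟩
  | cons h q ih =>
    intro u hu
    have h' := h
    obtain ⟨-, i, hi, hadj⟩ := h'
    obtain ⟨v, hv, hle⟩ := ih (adjSwap n i hi * u) (by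
      rw [hadj, hu, mul_inv_rev, adjSwap_inv]
      simp only [mul_assoc])
    refine ⟨v, hv, ?_⟩
    have := inv_swap_mul u i hi
    rw [SimpleGraph.Walk.length_cons]
    omega

/-- A permutation commuting with the rotation is a translation. -/
theorem comm_rotate {n : ℕ} (v : Perm (Fin (n + 1)))
    (h : v * finRotate (n + 1) = finRotate (n + 1) * v) (x : Fin (n + 1)) : v x = v 0 + x := by
  induction x using Fin.induction with
  | zero => simp
  | succ i ih =>
    have h1 := congrArg (fun f : Perm (Fin (n + 1)) => f i.castSucc) h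
    simp only [Perm.mul_apply, finRotate_apply] at h1
    rw [Fin.coeSucc_eq_succ] at h1
    rw [h1, ih, add_assoc, Fin.coeSucc_eq_succ]

theorem rotate_pow {n : ℕ} {u w : Perm (Fin (n + 1))}
    (h : u * finRotate (n + 1) * u⁻¹ = w * finRotate (n + 1) * w⁻¹) :
    ∃ k : Fin (n + 1), ∀ x, u x = w (k + x) := by
  refine ⟨(w⁻¹ * u) 0, fun x => ?_⟩
  have h1 : (w⁻¹ * u) * finRotate (n + 1) = finRotate (n + 1) * (w⁻¹ * u) := by
    have : u * finRotate (n + 1) = w * finRotate (n + 1) * w⁻¹ * u := by
      rw [← h]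
      simp
    rw [mul_assoc, this]
    simp only [mul_assoc, inv_mul_cancel_left]
  rw [← comm_rotate _ h1 x]
  simp

theorem reachable {n : ℕ} (w : Perm (Fin (n + 1))) :
    ∀ (g : NCycle (n + 1)), g.1 = w * finRotate (n + 1) * w⁻¹ →
      (Gam (n + 1)).Reachable (cn (n + 1)) g := by
  have hw : w ∈ Submonoid.closure (Set.range fun i : Fin n ↦ swap i.castSucc i.succ) := by
    rw [Perm.mclosure_swap_castSucc_succ]
    exact Submonoid.mem_top w
  induction hw using Submonoid.closure_induction_left with
  | one =>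
    intro g hg
    have : g = cn (n + 1) := Subtype.ext (by rw [hg]; simp [cn])
    rw [this]
  | mul_left s hs w' hw' ih =>
    intro g hg
    obtain ⟨i, rfl⟩ := hs
    have hcyc : ∀ x y, (w' * finRotate (n + 1) * w'⁻¹).SameCycle x y := by
      intro x y
      rw [Perm.sameCycle_conj]
      exact rotate_sameCycle _ _ _
    set g' : NCycle (n + 1) := ⟨w' * finRotate (n + 1) * w'⁻¹, hcyc⟩ with hg'
    have h1 := ih g' rfl
    by_cases he : g' = g
    · rw [← he]
      exact h1
    · refine h1.trans (SimpleGraph.Adj.reachable ⟨he, (i : ℕ), by omega, ?_⟩)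
      rw [hg, mul_inv_rev, swap_inv]
      simp only [mul_assoc]
      rfl

/-! ### The counterexample, `n = 18` -/

/-- the one-line notation (values `0, …, 17`) of the better permutation -/
def wf : Fin 18 → Fin 18 := ![4, 3, 16, 2, 15, 1, 14, 13, 0, 12, 11, 10, 9, 8, 7, 6, 5, 17]

theorem wf_injective : Function.Injective wf := by decide +kernel

/-- the better permutation -/
noncomputable def w : Perm (Fin 18) :=
  Equiv.ofBijective wf (Finite.injective_iff_bijective.mp wf_injective)

set_option maxRecDepth 100000 in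
theorem check : ∀ k : Fin 18, 83 ≤ ((Finset.univ : Finset (Fin 18 × Fin 18)).filter
    fun p => p.1 < p.2 ∧ wf (k + p.2) < wf (k + p.1)).card := by decide +kernel

theorem inv_pi0 : invList (pi0 18) = 82 := by decide +kernel

theorem invSet_one (n : ℕ) : (invSet (1 : Perm (Fin n))).card = 0 := by
  rw [Finset.card_eq_zero, invSet, Finset.filter_eq_empty_iff]
  rintro p - ⟨h1, h2⟩
  exact absurd h1 (not_lt.mpr h2.le)

/-- The `18`-cycle at distance at least `83` from `c_18`. -/
noncomputable def gam : NCycle 18 := ⟨w * finRotate 18 * w⁻¹, fun x y => by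
  rw [Perm.sameCycle_conj]
  exact rotate_sameCycle _ _ _⟩

theorem dist_ge : 83 ≤ (Gam 18).dist (cn 18) gam := by
  have hr : (Gam 18).Reachable (cn 18) gam := reachable w gam rfl
  obtain ⟨p, hp⟩ := hr.exists_walk_length_eq_dist
  obtain ⟨v, hv, hle⟩ := walk_inv p 1 (by simp [cn])
  rw [invSet_one, zero_add, hp] at hle
  obtain ⟨k, hk⟩ := rotate_pow (n := 17) (hv.symm.trans rfl)
  refine le_trans ?_ hle
  refine (check k).trans (le_of_eq ?_)
  unfold invSet
  congr 1
  refine Finset.filter_congr fun q _ => ?_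
  rw [hk, hk]
  rfl

/-- The equality `Sort_n = inv(π₀)` fails: there is an `n ≥ 1`, namely `n = 18`, with
`inv(π₀) < Sort_n`. -/
theorem result : ∃ n : ℕ, 1 ≤ n ∧ invList (pi0 n) < sortTime n := by
  refine ⟨18, by norm_num, ?_⟩
  rw [inv_pi0]
  let _ : Fintype (NCycle 18) := Fintype.ofFinite _
  exact lt_of_lt_of_le (by norm_num) (dist_ge.trans
    (Finset.le_sup (f := fun g => (Gam 18).dist (cn 18) g) (Finset.mem_univ gam)))

end Pool.Agent.Results.MP_fb91b8_co.Disproof
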